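import Pool.Agent.helper7.WB.R2_1a
import Pool.Agent.helper22.WB.R2_2
import Pool.Agent.helper9.WB.R2_4T
import Pool.Agent.helper21.WB.HB

/-! helper8.  [R2-7] of helper7's plan for MP_7b8095_gt: matching of horoballs. -/

set_option autoImplicit false
open Matrix MeasureTheory

namespace Pool.Agent.helper7.WB
open Pool.Agent.helper21.WB

namespace R27

/-- the statement of `null_close` of [R2-1] -/
def NullClose : Prop := ∀ (L ε : ℝ) (_ : 0 < ε), ∃ δ : ℝ, 0 < δ ∧ ∀ (ξ ζ : I → ℝ) (y z : X),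
    NullF ξ → NullF ζ → |Real.log (hb ξ y)| ≤ 2 → |Real.log (hb ξ y) - Real.log (hb ζ y)| ≤ δ →
    - bl ξ ζ ≤ δ → hd y z ≤ L → |Real.log (hb ξ z) - Real.log (hb ζ z)| ≤ ε

/-- the statement of `match_at` [R2-6] -/
def MatchAt : Prop := ∃ η₀ : ℝ, 0 < η₀ ∧ ∀ η : ℝ, 0 < η → η ≤ η₀ → ∀ D : ℝ, 24 ≤ D → ∀ ε : ℝ, 0 < ε →
    ∃ ρ₀ : ℝ, 0 < ρ₀ ∧ ∀ {Γ Γ' : Subgroup GLI} {φ : Γ ≃* Γ'} {P : Type} {q q' : P → GLI}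
      {Ξ Ξ' : Set (I → ℝ)} {ρ : ℝ}, ρ ≤ ρ₀ → Mt Γ Γ' φ q q' Ξ Ξ' η D ρ →
      ∀ ξ ∈ Ξ, ∀ y, hb ξ y = 1 → ∀ σ, hd y (act (q σ) 0) ≤ D / 6 → ∃ ξ' ∈ Ξ',
        |Real.log (hb ξ' (act (Tr q q' σ) y))| ≤ ε ∧ - bl ((Tr q q' σ).val *ᵥ ξ) ξ' ≤ ε

/-- comparison of the height functions of matched horoballs near the matching point -/
theorem match_cmp (hN : NullClose) : ∃ δ : ℝ, 0 < δ ∧ ∀ (g : GLI) (ξ ξ' : I → ℝ) (y z : X), InG g → NullF ξ → NullF ξ' →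
    hb ξ y = 1 → |Real.log (hb ξ' (act g y))| ≤ δ → - bl (g.val *ᵥ ξ) ξ' ≤ δ → hd y z ≤ 2 →
    |Real.log (hb ξ z) - Real.log (hb ξ' (act g z))| ≤ 1 / 4 := by
  obtain ⟨δ, hδ, H⟩ := hN 2 (1 / 4) (by norm_num)
  refine ⟨δ, hδ, fun g ξ ξ' y z hg hξ hξ' hy h1 h2 hz => ?_⟩
  have hn := nullF_mulVec hξ hg
  have e1 : hb (g.val *ᵥ ξ) (act g y) = 1 := by rw [hb_act hg, hy]
  have e2 : hb (g.val *ᵥ ξ) (act g z) = hb ξ z := hb_act hg z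
  have := H (g.val *ᵥ ξ) ξ' (act g y) (act g z) hn hξ' (by rw [e1]; simp)
    (by rw [e1, Real.log_one, zero_sub, abs_neg]; exact h1) h2 (by rw [hd_act hg]; exact hz)
  rwa [e2] at this

theorem le_one_of_log {ξ : I → ℝ} (h : NullF ξ) {y : X} (hy : Real.log (hb ξ y) ≤ 0) : hb ξ y ≤ 1 :=
  (Real.log_nonpos_iff (hb_pos h y).le).1 hy

theorem exists_pt {ξ : I → ℝ} (h : NullF ξ) : ∃ y, hb ξ y = 1 := by
  refine ⟨mv ξ (Real.log (hb ξ 0)) 0, ?_⟩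
  rw [hb_mv h, Real.exp_neg, Real.exp_log (hb_pos h 0)]
  exact inv_mul_cancel₀ (hb_pos h 0).ne'

theorem horo_out {Ξ : Set (I → ℝ)} (hΞ : Horo Ξ) {ξ : I → ℝ} (h : ξ ∈ Ξ) {y : X} (hy : hb ξ y = 1) :
    y ∈ Out Ξ := by
  intro ζ hζ
  by_contra hc
  push Not at hc
  have := hΞ.disj ξ h ζ hζ y hy.le hc.le
  rw [← this, hy] at hc
  exact lt_irrefl _ hc

theorem log_hb_mv {ξ : I → ℝ} (h : NullF ξ) (t : ℝ) {y : X} (hy : hb ξ y = 1) :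
    Real.log (hb ξ (mv ξ t y)) = -t := by
  rw [hb_mv h, hy, mul_one, Real.log_exp]

theorem log_hb_lip {ξ : I → ℝ} (h : NullF ξ) (x y : X) :
    Real.log (hb ξ y) ≤ Real.log (hb ξ x) + hd x y := by
  have h1 := hb_lip h x y
  have h2 := Real.log_le_log (hb_pos h y) h1
  rw [Real.log_mul (Real.exp_pos _).ne' (hb_pos h x).ne', Real.log_exp] at h2
  linarith

theorem Tr_inG {P : Type} {q q' : P → GLI} {D ρ : ℝ} (h : MF q q' D ρ) (σ : P) : InG (Tr q q' σ) :=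
  (h.inG' σ).mul (h.inG σ).inv

theorem Tr_base {P : Type} {q q' : P → GLI} {D ρ : ℝ} (h : MF q q' D ρ) (σ : P) :
    act (Tr q q' σ) (act (q σ) 0) = act (q' σ) 0 := by
  unfold Tr
  rw [act_mul (h.inG σ).inv, act_inv_act (h.inG σ)]

theorem Tr_swap {P : Type} (q q' : P → GLI) (σ : P) : Tr q' q σ = (Tr q q' σ)⁻¹ := by
  unfold Tr; rw [_root_.mul_inv_rev, inv_inv]

/-- horoballs matched with the same horoball at nearby points are equal -/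
theorem same_of_near (hN : NullClose) : ∃ δ : ℝ, 0 < δ ∧ ∀ D : ℝ, 24 ≤ D → ∃ ρ₀ : ℝ, 0 < ρ₀ ∧
    ∀ {Γ Γ' : Subgroup GLI} {φ : Γ ≃* Γ'} {P : Type} {q q' : P → GLI}
      {Ξ Ξ' : Set (I → ℝ)} {η ρ : ℝ}, ρ ≤ ρ₀ → Mt Γ Γ' φ q q' Ξ Ξ' η D ρ →
      ∀ ξ ∈ Ξ, ∀ ξ₁ ∈ Ξ', ∀ ξ₂ ∈ Ξ', ∀ (y z : X) (σ τ : P), hb ξ y = 1 → hb ξ z = 1 →
        hd y (act (q σ) 0) ≤ D / 6 → hd z (act (q τ) 0) ≤ D / 6 → hd y z ≤ 1 →
        |Real.log (hb ξ₁ (act (Tr q q' σ) y))| ≤ δ → - bl ((Tr q q' σ).val *ᵥ ξ) ξ₁ ≤ δ →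
        |Real.log (hb ξ₂ (act (Tr q q' τ) z))| ≤ δ → - bl ((Tr q q' τ).val *ᵥ ξ) ξ₂ ≤ δ →
        ξ₁ = ξ₂ := by
  obtain ⟨δ, hδ, H⟩ := match_cmp hN
  refine ⟨δ, hδ, fun D hD => ?_⟩
  obtain ⟨ρ₀, hρ₀, HT⟩ := T_near D D (1 / 4) hD (by norm_num)
  refine ⟨ρ₀, hρ₀, ?_⟩
  intro Γ Γ' φ P q q' Ξ Ξ' η ρ hρ hM ξ hξ ξ₁ h1 ξ₂ h2 y z σ τ hy hz hyσ hzτ hyz a1 a2 b1 b2
  have nξ := hM.horo.horo.null ξ hξ
  have n1 := hM.horo'.horo.null ξ₁ h1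
  have n2 := hM.horo'.horo.null ξ₂ h2
  set x := mv ξ 1 y with hx
  have lx : Real.log (hb ξ x) = -1 := log_hb_mv nξ 1 hy
  have dyx : hd y x = 1 := by rw [hx, hd_mv nξ]; simp
  have dzx : hd z x ≤ 2 := by
    have := hd_triangle z y x
    rw [hd_comm z y] at this
    linarith
  have c1 := H (Tr q q' σ) ξ ξ₁ y x (Tr_inG hM.mf σ) nξ n1 hy a1 a2 (by rw [dyx]; norm_num)
  have c2 := H (Tr q q' τ) ξ ξ₂ z x (Tr_inG hM.mf τ) nξ n2 hz b1 b2 dzx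
  rw [lx] at c1 c2
  have c1' := (abs_le.1 c1).2
  have c2' := (abs_le.1 c2).2
  have c1'' := (abs_le.1 c1).1
  have c2'' := (abs_le.1 c2).1
  have hστ : hd (act (q σ) 0) (act (q τ) 0) ≤ D := by
    have t1 := hd_triangle (act (q σ) 0) y (act (q τ) 0)
    have t2 := hd_triangle y z (act (q τ) 0)
    rw [hd_comm (act (q σ) 0) y] at t1
    linarith
  have hxσ : hd x (act (q σ) 0) ≤ D := by
    have t1 := hd_triangle x y (act (q σ) 0)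
    rw [hd_comm x y] at t1
    linarith
  have hT := (HT hρ hM σ τ hστ x hxσ).2
  have l := log_hb_lip n2 (act (Tr q q' τ) x) (act (Tr q q' σ) x)
  rw [hd_comm (act (Tr q q' τ) x)] at l
  exact hM.horo'.horo.disj ξ₁ h1 ξ₂ h2 (act (Tr q q' σ) x)
    (le_one_of_log n1 (by linarith)) (le_one_of_log n2 (by linarith))

theorem hd_le_one {ξ : I → ℝ} (h : NullF ξ) {x y : X} (hx : hb ξ x = 1) (hy : hb ξ y = 1)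
    (hf : fl ξ x y ≤ 1) : hd x y ≤ 1 := by
  have e := ch_eq_fl h x y
  rw [hx, hy, sub_self, Real.cosh_zero] at e
  have h0 := fl_nonneg ξ x y
  have h1 : ch x y ≤ Real.cosh 1 := by
    have h2 : (3 / 2 : ℝ) ≤ Real.cosh 1 := by
      rw [Real.cosh_eq]
      have := Real.exp_one_gt_d9
      have := Real.exp_neg_one_gt_d9
      linarith
    nlinarith
  rw [← cosh_hd] at h1
  have := Real.cosh_le_cosh.1 h1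
  rwa [abs_of_nonneg (hd_nonneg x y), abs_one] at this

/-- half of the matching -/
theorem exists_half (hN : NullClose) (hA : MatchAt) : ∃ η₀ : ℝ, 0 < η₀ ∧ ∀ η : ℝ, 0 < η → η ≤ η₀ → ∀ D : ℝ, 24 ≤ D → ∀ ε : ℝ, 0 < ε →
    ∃ ρ₀ : ℝ, 0 < ρ₀ ∧ ∀ {Γ Γ' : Subgroup GLI} {φ : Γ ≃* Γ'} {P : Type} {q q' : P → GLI}
      {Ξ Ξ' : Set (I → ℝ)} {ρ : ℝ}, ρ ≤ ρ₀ → Mt Γ Γ' φ q q' Ξ Ξ' η D ρ →
      ∀ ξ ∈ Ξ, ∃ ξ' ∈ Ξ', Mh q q' D ε ξ ξ' := by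
  obtain ⟨η₀, hη₀, H⟩ := hA
  obtain ⟨δ, hδ, S⟩ := same_of_near hN
  refine ⟨η₀, hη₀, fun η h0 h1 D hD ε hε => ?_⟩
  obtain ⟨ρ₁, hρ₁, H1⟩ := H η h0 h1 D hD (min ε δ) (lt_min hε hδ)
  obtain ⟨ρ₂, hρ₂, S1⟩ := S D hD
  refine ⟨min ρ₁ ρ₂, lt_min hρ₁ hρ₂, ?_⟩
  intro Γ Γ' φ P q q' Ξ Ξ' ρ hρ hM ξ hξ
  have nξ := hM.horo.horo.null ξ hξ
  have K : ∀ y, hb ξ y = 1 → ∀ σ, hd y (act (q σ) 0) ≤ D / 6 → ∃ ξ' ∈ Ξ',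
      |Real.log (hb ξ' (act (Tr q q' σ) y))| ≤ min ε δ ∧ - bl ((Tr q q' σ).val *ᵥ ξ) ξ' ≤ min ε δ :=
    fun y hy σ hσ => H1 (hρ.trans (min_le_left _ _)) hM ξ hξ y hy σ hσ
  have S2 : ∀ ξ₁ ∈ Ξ', ∀ ξ₂ ∈ Ξ', ∀ (y z : X) (σ τ : P), hb ξ y = 1 → hb ξ z = 1 →
        hd y (act (q σ) 0) ≤ D / 6 → hd z (act (q τ) 0) ≤ D / 6 → hd y z ≤ 1 →
        |Real.log (hb ξ₁ (act (Tr q q' σ) y))| ≤ δ → - bl ((Tr q q' σ).val *ᵥ ξ) ξ₁ ≤ δ →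
        |Real.log (hb ξ₂ (act (Tr q q' τ) z))| ≤ δ → - bl ((Tr q q' τ).val *ᵥ ξ) ξ₂ ≤ δ →
        ξ₁ = ξ₂ := S1 (hρ.trans (min_le_right _ _)) hM ξ hξ
  have hεδ : min ε δ ≤ δ := min_le_right _ _
  -- points of the set `P` near the horosphere
  have dn : ∀ y, hb ξ y = 1 → ∃ σ, hd y (act (q σ) 0) ≤ D / 6 := by
    intro y hy
    obtain ⟨σ, hσ⟩ := hM.dense y (horo_out hM.horo.horo hξ hy)
    exact ⟨σ, by linarith⟩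
  obtain ⟨y₀, hy₀⟩ := exists_pt nξ
  obtain ⟨σ₀, hσ₀⟩ := dn y₀ hy₀
  obtain ⟨ξ', hξ', k1, k2⟩ := K y₀ hy₀ σ₀ hσ₀
  refine ⟨ξ', hξ', fun y hy σ hσ => ?_⟩
  -- chain from `y₀` to `y`
  obtain ⟨m, hm⟩ := exists_nat_ge (fl ξ y₀ y)
  obtain ⟨z, z0, zm, zh, zf⟩ := fl_subdiv nξ hy₀ hy (m + 1) (Nat.succ_pos m)
  have zstep : ∀ k, k < m + 1 → hd (z k) (z (k + 1)) ≤ 1 := by
    intro k hk
    refine hd_le_one nξ (zh k) (zh (k + 1)) ?_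
    rw [zf k hk, div_le_one (by positivity)]
    push_cast
    linarith
  have Q : ∀ k, k ≤ m + 1 → ∀ τ, hd (z k) (act (q τ) 0) ≤ D / 6 →
      |Real.log (hb ξ' (act (Tr q q' τ) (z k)))| ≤ min ε δ ∧
        - bl ((Tr q q' τ).val *ᵥ ξ) ξ' ≤ min ε δ := by
    intro k
    induction k with
    | zero =>
      intro _ τ hτ
      rw [z0] at hτ ⊢
      obtain ⟨ζ, hζ, l1, l2⟩ := K y₀ hy₀ τ hτ
      have e := S2 ξ' hξ' ζ hζ y₀ y₀ σ₀ τ hy₀ hy₀ hσ₀ hτ (by rw [hd_self]; norm_num)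
        (k1.trans hεδ) (k2.trans hεδ) (l1.trans hεδ) (l2.trans hεδ)
      rw [e]; exact ⟨l1, l2⟩
    | succ k ih =>
      intro hk τ hτ
      obtain ⟨υ, hυ⟩ := dn (z k) (zh k)
      obtain ⟨p1, p2⟩ := ih (by omega) υ hυ
      obtain ⟨ζ, hζ, l1, l2⟩ := K (z (k + 1)) (zh _) τ hτ
      have e := S2 ξ' hξ' ζ hζ (z k) (z (k + 1)) υ τ (zh _) (zh _) hυ hτ (zstep k (by omega))
        (p1.trans hεδ) (p2.trans hεδ) (l1.trans hεδ) (l2.trans hεδ)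
      rw [e]; exact ⟨l1, l2⟩
  have := Q (m + 1) le_rfl σ (by rw [zm]; exact hσ)
  rw [zm] at this
  exact ⟨this.1.trans (min_le_left _ _), this.2.trans (min_le_left _ _)⟩

theorem exists_match_of (hN : NullClose) (hA : MatchAt) : ∃ η₀ : ℝ, 0 < η₀ ∧ ∀ η : ℝ, 0 < η → η ≤ η₀ → ∀ D : ℝ, 24 ≤ D → ∀ ε : ℝ, 0 < ε →
    ∃ ρ₀ : ℝ, 0 < ρ₀ ∧ ∀ {Γ Γ' : Subgroup GLI} {φ : Γ ≃* Γ'} {P : Type} {q q' : P → GLI}
      {Ξ Ξ' : Set (I → ℝ)} {ρ : ℝ}, ρ ≤ ρ₀ → Mt Γ Γ' φ q q' Ξ Ξ' η D ρ →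
      ∀ ξ ∈ Ξ, ∃ ξ' ∈ Ξ', Mc q q' D ε ξ ξ' := by
  obtain ⟨η₀, hη₀, H⟩ := R27.exists_half hN hA
  obtain ⟨δ, hδ, C⟩ := R27.match_cmp hN
  refine ⟨η₀, hη₀, fun η h0 h1 D hD ε hε => ?_⟩
  obtain ⟨ρ₀, hρ₀, H1⟩ := H η h0 h1 D hD (min ε (min δ 1)) (lt_min hε (lt_min hδ one_pos))
  refine ⟨ρ₀, hρ₀, ?_⟩
  intro Γ Γ' φ P q q' Ξ Ξ' ρ hρ hM ξ hξ
  have nξ := hM.horo.horo.null ξ hξ
  obtain ⟨ξ', hξ', M1⟩ := H1 hρ hM ξ hξ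
  obtain ⟨ξ'', hξ'', M2⟩ := H1 hρ hM.symm ξ' hξ'
  have nξ' := hM.horo'.horo.null ξ' hξ'
  have nξ'' := hM.horo.horo.null ξ'' hξ''
  have e1 : min ε (min δ 1) ≤ ε := min_le_left _ _
  have e2 : min ε (min δ 1) ≤ δ := (min_le_right _ _).trans (min_le_left _ _)
  have e3 : min ε (min δ 1) ≤ 1 := (min_le_right _ _).trans (min_le_right _ _)
  have key : ξ'' = ξ := by
    obtain ⟨y, hy⟩ := R27.exists_pt nξ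
    obtain ⟨σ, hσ⟩ := hM.dense y (R27.horo_out hM.horo.horo hξ hy)
    have gT := R27.Tr_inG hM.mf σ
    have gT' := R27.Tr_inG hM.symm.mf σ
    obtain ⟨m1, m2⟩ := M1 y hy σ (by linarith)
    set y' := act (Tr q q' σ) y with hy'
    set h := Real.log (hb ξ' y') with hh
    set y1 := mv ξ' h y' with hy1
    have hy1' : hb ξ' y1 = 1 := by
      rw [hy1, hb_mv nξ', hh, Real.exp_neg, Real.exp_log (hb_pos nξ' _)]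
      exact inv_mul_cancel₀ (hb_pos nξ' _).ne'
    have d1 : hd y' y1 ≤ 1 := by rw [hy1, hd_mv nξ']; linarith
    have d2 : hd y1 (act (q' σ) 0) ≤ D / 6 := by
      have t := hd_triangle y1 y' (act (q' σ) 0)
      rw [hd_comm y1 y', ← R27.Tr_base hM.mf σ, hy', hd_act gT] at t
      rw [← R27.Tr_base hM.mf σ]
      rw [hy'] at d1
      linarith
    obtain ⟨n1, n2⟩ := M2 y1 hy1' σ d2
    have lx : Real.log (hb ξ (mv ξ 1 y)) = -1 := R27.log_hb_mv nξ 1 hy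
    have dyx : hd y (mv ξ 1 y) = 1 := by rw [hd_mv nξ]; simp
    have c1 := C (Tr q q' σ) ξ ξ' y (mv ξ 1 y) gT nξ nξ' hy (m1.trans e2) (m2.trans e2)
      (by rw [dyx]; norm_num)
    have dd : hd y1 (act (Tr q q' σ) (mv ξ 1 y)) ≤ 2 := by
      have t := hd_triangle y1 y' (act (Tr q q' σ) (mv ξ 1 y))
      rw [hd_comm y1 y', hy', hd_act gT, dyx] at t
      rw [hy'] at d1
      linarith
    have c2 := C (Tr q' q σ) ξ' ξ'' y1 (act (Tr q q' σ) (mv ξ 1 y)) gT' nξ' nξ'' hy1'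
      (n1.trans e2) (n2.trans e2) dd
    rw [R27.Tr_swap q q' σ, act_inv_act gT] at c2
    rw [lx] at c1
    have c1' := (abs_le.1 c1).1
    have c2' := (abs_le.1 c2).1
    exact hM.horo.horo.disj ξ'' hξ'' ξ hξ (mv ξ 1 y)
      (R27.le_one_of_log nξ'' (by linarith)) (R27.le_one_of_log nξ (by linarith))
  rw [key] at M2
  exact ⟨ξ', hξ', fun y hy σ hσ => ⟨(M1 y hy σ hσ).1.trans e1, (M1 y hy σ hσ).2.trans e1⟩,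
    fun y hy σ hσ => ⟨(M2 y hy σ hσ).1.trans e1, (M2 y hy σ hσ).2.trans e1⟩⟩

theorem match_unique_of (hN : NullClose) : ∃ ε₀ : ℝ, 0 < ε₀ ∧ ∀ {Γ Γ' : Subgroup GLI} {φ : Γ ≃* Γ'} {P : Type}
      {q q' : P → GLI} {Ξ Ξ' : Set (I → ℝ)} {η D ρ : ℝ}, 24 ≤ D → Mt Γ Γ' φ q q' Ξ Ξ' η D ρ →
      ∀ ξ ∈ Ξ, ∀ ξ' ∈ Ξ', ∀ ξ'' ∈ Ξ', Mh q q' D ε₀ ξ ξ' → Mh q q' D ε₀ ξ ξ'' → ξ' = ξ'' := by
  obtain ⟨δ, hδ, C⟩ := R27.match_cmp hN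
  refine ⟨δ, hδ, ?_⟩
  intro Γ Γ' φ P q q' Ξ Ξ' η D ρ hD hM ξ hξ ξ' hξ' ξ'' hξ'' M1 M2
  have nξ := hM.horo.horo.null ξ hξ
  have nξ' := hM.horo'.horo.null ξ' hξ'
  have nξ'' := hM.horo'.horo.null ξ'' hξ''
  obtain ⟨y, hy⟩ := R27.exists_pt nξ
  obtain ⟨σ, hσ⟩ := hM.dense y (R27.horo_out hM.horo.horo hξ hy)
  have gT := R27.Tr_inG hM.mf σ
  obtain ⟨m1, m2⟩ := M1 y hy σ (by linarith)
  obtain ⟨n1, n2⟩ := M2 y hy σ (by linarith)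
  have lx : Real.log (hb ξ (mv ξ 1 y)) = -1 := R27.log_hb_mv nξ 1 hy
  have dyx : hd y (mv ξ 1 y) = 1 := by rw [hd_mv nξ]; simp
  have c1 := C (Tr q q' σ) ξ ξ' y (mv ξ 1 y) gT nξ nξ' hy m1 m2 (by rw [dyx]; norm_num)
  have c2 := C (Tr q q' σ) ξ ξ'' y (mv ξ 1 y) gT nξ nξ'' hy n1 n2 (by rw [dyx]; norm_num)
  rw [lx] at c1 c2
  have c1' := (abs_le.1 c1).1
  have c2' := (abs_le.1 c2).1
  exact hM.horo'.horo.disj ξ' hξ' ξ'' hξ'' (act (Tr q q' σ) (mv ξ 1 y))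
    (R27.le_one_of_log nξ' (by linarith)) (R27.le_one_of_log nξ'' (by linarith))

end R27

end Pool.Agent.helper7.WB
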